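import Pool.Agent.H79.HopfKit

/-! A finite-dimensional Hopf algebra extension with infinite factorization index. -/

set_option autoImplicit false

namespace Pool.Agent.Results.MP_d8e1db_al.Infinite

open TensorProduct Coalgebra Pool.Agent.H79.HopfKit

/-- A subalgebra `S` of a Hopf algebra `E` is a Hopf subalgebra: it is a subcoalgebra stable under
the antipode. -/
def IsHopfSub {k E : Type} [Field k] [Ring E] [HopfAlgebra k E] (S : Subalgebra k E) : Prop :=
  (∀ x ∈ S, comul (R := k) x ∈ LinearMap.range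
    (TensorProduct.map S.val.toLinearMap S.val.toLinearMap)) ∧
  ∀ x ∈ S, HopfAlgebra.antipode k x ∈ S

/-- `H` is an `A`-complement: a Hopf subalgebra with `A ⊗ H → E`, `a ⊗ h ↦ a h`, bijective. -/
def IsComplement {k E : Type} [Field k] [Ring E] [HopfAlgebra k E] (A H : Subalgebra k E) : Prop :=
  IsHopfSub H ∧ Function.Bijective
    (LinearMap.mul' k E ∘ₗ TensorProduct.map A.val.toLinearMap H.val.toLinearMap)

section
variable (k : Type) [Field k]

inductive Rel : FreeAlgebra k Bool → FreeAlgebra k Bool → Prop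
  | sq (i : Bool) : Rel (FreeAlgebra.ι k i * FreeAlgebra.ι k i) 0
  | hh : Rel ((FreeAlgebra.ι k true * FreeAlgebra.ι k false + FreeAlgebra.ι k false * FreeAlgebra.ι k true) ^ 2)
      (FreeAlgebra.ι k true * FreeAlgebra.ι k false + FreeAlgebra.ι k false * FreeAlgebra.ι k true)

def E : Type := RingQuot (Rel k)

noncomputable instance : Ring (E k) := inferInstanceAs (Ring (RingQuot (Rel k)))
noncomputable instance : Algebra k (E k) := inferInstanceAs (Algebra k (RingQuot (Rel k)))

noncomputable def mkE : FreeAlgebra k Bool →ₐ[k] E k := RingQuot.mkAlgHom k (Rel k)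

noncomputable def e : E k := mkE k (FreeAlgebra.ι k true)
noncomputable def f : E k := mkE k (FreeAlgebra.ι k false)
noncomputable def h : E k := e k * f k + f k * e k

variable {k}

lemma ee : e k * e k = 0 := by
  have := RingQuot.mkAlgHom_rel k (Rel.sq (k := k) true)
  rw [map_mul, map_zero] at this; exact this
lemma ff : f k * f k = 0 := by
  have := RingQuot.mkAlgHom_rel k (Rel.sq (k := k) false)
  rw [map_mul, map_zero] at this; exact this
lemma hh : h k * h k = h k := by
  have := RingQuot.mkAlgHom_rel k (Rel.hh (k := k))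
  rw [map_pow, map_add, map_mul, map_mul, sq] at this; exact this
lemma eh : e k * h k = h k * e k := by
  simp only [h, mul_add, add_mul, ← mul_assoc, ee, zero_mul, zero_add]
  rw [mul_assoc (f k), ee]; simp
lemma fh : f k * h k = h k * f k := by
  simp only [h, mul_add, add_mul, ← mul_assoc, ff, zero_mul, add_zero]
  rw [mul_assoc (e k), ff]; simp

noncomputable def liftE {B : Type} [Ring B] [Algebra k B] (a b : B) (ha : a * a = 0)
    (hb : b * b = 0) (hc : (a * b + b * a) ^ 2 = a * b + b * a) : E k →ₐ[k] B :=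
  RingQuot.liftAlgHom k ⟨FreeAlgebra.lift k fun i => cond i a b, by
    rintro _ _ (i | _)
    · cases i <;> simp [ha, hb]
    · simpa using hc⟩

@[simp] lemma liftE_e {B : Type} [Ring B] [Algebra k B] (a b : B) (ha : a * a = 0)
    (hb : b * b = 0) (hc : (a * b + b * a) ^ 2 = a * b + b * a) : liftE a b ha hb hc (e k) = a := by
  refine (RingQuot.liftAlgHom_mkAlgHom_apply k _ _ _).trans ?_; simp
@[simp] lemma liftE_f {B : Type} [Ring B] [Algebra k B] (a b : B) (ha : a * a = 0)
    (hb : b * b = 0) (hc : (a * b + b * a) ^ 2 = a * b + b * a) : liftE a b ha hb hc (f k) = b := by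
  refine (RingQuot.liftAlgHom_mkAlgHom_apply k _ _ _).trans ?_; simp

lemma adjE : Algebra.adjoin k {e k, f k} = ⊤ := by
  rw [eq_top_iff]
  rintro a -
  obtain ⟨p, rfl⟩ : ∃ p, mkE k p = a := RingQuot.mkAlgHom_surjective k _ a
  induction p with
  | grade0 r => rw [AlgHom.commutes]; exact Subalgebra.algebraMap_mem _ _
  | grade1 i => cases i <;> exact Algebra.subset_adjoin (by simp [e, f])
  | mul a b ha hb => rw [map_mul]; exact mul_mem ha hb
  | add a b ha hb => rw [map_add]; exact add_mem ha hb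

lemma extE {B : Type} [Ring B] [Algebra k B] {p q : E k →ₐ[k] B} (h1 : p (e k) = q (e k))
    (h2 : p (f k) = q (f k)) : p = q :=
  AlgHom.ext_of_adjoin_eq_top adjE (by rintro _ (rfl | rfl) <;> assumption)

variable [CharP k 2]

/-- the primitive expression -/
noncomputable def pr (x : E k) : E k ⊗[k] E k := x ⊗ₜ[k] 1 + 1 ⊗ₜ[k] x

lemma pr_sq (x : E k) : pr x * pr x = pr (x * x) := by
  rw [← sq, pr, prim_sq, sq, pr]

lemma pr_br (x y : E k) : pr x * pr y + pr y * pr x = pr (x * y + y * x) := by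
  simp only [pr, mul_add, add_mul, Algebra.TensorProduct.tmul_mul_tmul, mul_one, one_mul, add_tmul,
    tmul_add]
  have h1 := two0 (k := k) (x ⊗ₜ[k] y)
  have h2 := two0 (k := k) (y ⊗ₜ[k] x)
  linear_combination (norm := abel_nf) h1 + h2

omit [CharP k 2] in
lemma pr0 : pr (0 : E k) = 0 := by simp [pr]

noncomputable def D : E k →ₐ[k] E k ⊗[k] E k := liftE (pr (e k)) (pr (f k))
  (by rw [pr_sq, ee, pr0]) (by rw [pr_sq, ff, pr0]) (by rw [pr_br, sq, pr_sq]; exact congrArg pr hh)

noncomputable instance : Bialgebra k (E k) :=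
  Bialgebra.ofAlgHom D (liftE 0 0 (by simp) (by simp) (by simp))
    (extE (by simp [D, pr, Algebra.TensorProduct.one_def, tmul_add, add_tmul, add_assoc])
      (by simp [D, pr, Algebra.TensorProduct.one_def, tmul_add, add_tmul, add_assoc]))
    (extE (by simp [D, pr]) (by simp [D, pr])) (extE (by simp [D, pr]) (by simp [D, pr]))

lemma comul_e : comul (R := k) (e k) = pr (e k) := by
  change D (e k) = _; simp [D]
lemma comul_f : comul (R := k) (f k) = pr (f k) := by
  change D (f k) = _; simp [D]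
lemma counit_e : counit (R := k) (e k) = 0 := liftE_e (0 : k) 0 (by simp) (by simp) (by simp)
lemma counit_f : counit (R := k) (f k) = 0 := liftE_f (0 : k) 0 (by simp) (by simp) (by simp)

noncomputable def Sop : E k →ₐ[k] (E k)ᵐᵒᵖ := liftE (MulOpposite.op (e k)) (MulOpposite.op (f k))
  (by rw [← MulOpposite.op_mul, ee]; rfl) (by rw [← MulOpposite.op_mul, ff]; rfl)
  (by
    rw [← MulOpposite.op_mul, ← MulOpposite.op_mul, ← MulOpposite.op_add, ← MulOpposite.op_pow,
      add_comm, sq]
    exact congrArg _ hh)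

noncomputable instance : HopfAlgebra k (E k) :=
  hopf Sop {e k, f k} adjE (by
    rintro _ (rfl | rfl)
    · simp [Anti, comul_e, counit_e, pr, Sop, two0 (k := k)]
    · simp [Anti, comul_f, counit_f, pr, Sop, two0 (k := k)])

lemma S_eq (x : E k) : HopfAlgebra.antipode k x = (Sop x).unop := rfl

/-- a subalgebra generated by primitive elements fixed by the antipode is a Hopf subalgebra -/
lemma hopfSub (s : Set (E k)) (hs : ∀ x ∈ s, comul (R := k) x = pr x ∧ (Sop x).unop = x) :
    IsHopfSub (Algebra.adjoin k s) := by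
  constructor
  · intro x hx
    have : comul (R := k) x ∈ (Algebra.TensorProduct.map (Algebra.adjoin k s).val
        (Algebra.adjoin k s).val).range := by
      induction hx using Algebra.adjoin_induction with
      | mem x hx =>
        exact ⟨⟨x, Algebra.subset_adjoin hx⟩ ⊗ₜ 1 + 1 ⊗ₜ ⟨x, Algebra.subset_adjoin hx⟩, by
          simp [(hs x hx).1, pr]⟩
      | algebraMap r => rw [Bialgebra.comul_algebraMap]; exact Subalgebra.algebraMap_mem _ _
      | add x y _ _ h1 h2 => rw [map_add]; exact add_mem h1 h2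
      | mul x y _ _ h1 h2 => rw [Bialgebra.comul_mul]; exact mul_mem h1 h2
    obtain ⟨y, hy⟩ := this
    exact ⟨y, hy⟩
  · intro x hx
    rw [S_eq]
    induction hx using Algebra.adjoin_induction with
    | mem x hx => rw [(hs x hx).2]; exact Algebra.subset_adjoin hx
    | algebraMap r => rw [AlgHom.commutes]; exact Subalgebra.algebraMap_mem _ r
    | add x y _ _ h1 h2 => rw [map_add]; exact add_mem h1 h2
    | mul x y _ _ h1 h2 => rw [map_mul]; exact mul_mem h2 h1

noncomputable def Y (b : k) : E k := f k + b • e k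

omit [CharP k 2] in
lemma XX (b : k) : Y b * Y b = b • h k := by
  simp [Y, mul_add, add_mul, ee, ff, h, add_comm]
omit [CharP k 2] in
lemma Xh (b : k) : Y b * h k = h k * Y b := by simp [Y, mul_add, add_mul, eh, fh]
lemma Xe (b : k) : Y b * e k = h k + e k * Y b := by
  simp only [Y, mul_add, add_mul, ee, smul_mul_assoc, mul_smul_comm, smul_zero, add_zero, h]
  have h1 := two0 (k := k) (e k * f k)
  linear_combination (norm := abel_nf) -h1

noncomputable def vA : Fin 2 → E k := ![1, e k]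
noncomputable def vH (b : k) : Fin 4 → E k := ![1, h k, Y b, h k * Y b]

omit [CharP k 2] in
lemma memA {x : E k} (hx : x ∈ Algebra.adjoin k {e k}) : x ∈ Submodule.span k (Set.range vA) := by
  have h1 : (1 : E k) ∈ Submodule.span k (Set.range vA) := Submodule.subset_span ⟨0, rfl⟩
  have h2 : e k ∈ Submodule.span k (Set.range vA) := Submodule.subset_span ⟨1, rfl⟩
  let S : Subalgebra k (E k) := (Submodule.span k (Set.range vA)).toSubalgebra h1 (by
    intro x y hx hy
    have : Submodule.span k (Set.range (vA (k := k))) * Submodule.span k (Set.range vA) ≤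
        Submodule.span k (Set.range vA) := by
      rw [Submodule.span_mul_span, Submodule.span_le]
      rintro _ ⟨_, ⟨i, rfl⟩, _, ⟨j, rfl⟩, rfl⟩
      fin_cases i <;> fin_cases j <;>
        simp only [vA, Fin.zero_eta, Fin.mk_one, Matrix.cons_val_zero, Matrix.cons_val_one,
          one_mul, mul_one, ee, SetLike.mem_coe] <;>
        first | exact h1 | exact h2 | exact zero_mem _
    exact this (Submodule.mul_mem_mul hx hy))
  exact (Algebra.adjoin_le (S := S) (by rintro _ rfl; exact h2)) hx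

omit [CharP k 2] in
lemma memH (b : k) {x : E k} (hx : x ∈ Algebra.adjoin k {h k, Y b}) :
    x ∈ Submodule.span k (Set.range (vH b)) := by
  have h1 : ∀ i, vH b i ∈ Submodule.span k (Set.range (vH b)) := fun i =>
    Submodule.subset_span ⟨i, rfl⟩
  have h2 : b • h k ∈ Submodule.span k (Set.range (vH b)) := Submodule.smul_mem _ _ (h1 1)
  have a1 : h k * (h k * Y b) = h k * Y b := by rw [← mul_assoc, hh]
  have a2 : Y b * (h k * Y b) = b • h k := by
    rw [← mul_assoc, Xh, mul_assoc, XX, mul_smul_comm, hh]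
  have a3 : h k * Y b * h k = h k * Y b := by rw [mul_assoc, Xh, a1]
  have a4 : h k * Y b * Y b = b • h k := by rw [mul_assoc, XX, mul_smul_comm, hh]
  have a5 : h k * Y b * (h k * Y b) = b • h k := by rw [mul_assoc, a2, mul_smul_comm, hh]
  let S : Subalgebra k (E k) := (Submodule.span k (Set.range (vH b))).toSubalgebra (h1 0) (by
    intro x y hx hy
    have : Submodule.span k (Set.range (vH b)) * Submodule.span k (Set.range (vH b)) ≤
        Submodule.span k (Set.range (vH b)) := by
      rw [Submodule.span_mul_span, Submodule.span_le]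
      rintro _ ⟨_, ⟨i, rfl⟩, _, ⟨j, rfl⟩, rfl⟩
      fin_cases i <;> fin_cases j <;>
        simp only [vH, Fin.zero_eta, Fin.mk_one, Fin.reduceFinMk, Matrix.cons_val_zero,
          Matrix.cons_val_one, Matrix.cons_val, one_mul, mul_one, hh, XX, Xh, a1, a2, a3, a4, a5,
          SetLike.mem_coe] <;>
        first | exact h1 0 | exact h1 1 | exact h1 2 | exact h1 3 | exact h2
    exact this (Submodule.mul_mem_mul hx hy))
  exact (Algebra.adjoin_le (S := S) (by rintro _ (rfl | rfl); exacts [h1 1, h1 2])) hx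

noncomputable def r1 : E k →ₐ[k] Matrix (Fin 2) (Fin 2) k := liftE !![0, 1; 0, 0] !![0, 0; 1, 0]
  (by ext i j; fin_cases i <;> fin_cases j <;> simp)
  (by ext i j; fin_cases i <;> fin_cases j <;> simp)
  (by rw [sq]; ext i j; fin_cases i <;> fin_cases j <;> simp)

noncomputable def r0 : E k →ₐ[k] Matrix (Fin 4) (Fin 4) k :=
  liftE !![0, 0, 0, 0; 1, 0, 0, 0; 0, 0, 0, 0; 0, 0, 1, 0] !![0, 0, 0, 0; 0, 0, 0, 0; 1, 0, 0, 0; 0, 1, 0, 0]
  (by ext i j; fin_cases i <;> fin_cases j <;> simp)
  (by ext i j; fin_cases i <;> fin_cases j <;> simp)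
  (by rw [sq]; ext i j; fin_cases i <;> fin_cases j <;> simp [CharTwo.add_self_eq_zero])

lemma indep (b : k) : LinearIndependent k fun p : Fin 2 × Fin 4 => vA p.1 * vH b p.2 := by
  rw [Fintype.linearIndependent_iff]
  intro c hc
  have h0 := congrArg r0 hc
  have h1 := congrArg r1 hc
  simp only [Fintype.sum_prod_type, Fin.sum_univ_two, Fin.sum_univ_four, vA, vH, Y, h, map_add,
    map_smul, map_mul, map_one, map_zero, r0, r1, liftE_e, liftE_f, Matrix.cons_val_zero,
    Matrix.cons_val_one, Matrix.cons_val] at h0 h1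
  have p0 := congrFun (congrFun h0 0) 0
  have p1 := congrFun (congrFun h0 1) 0
  have p2 := congrFun (congrFun h0 2) 0
  have p3 := congrFun (congrFun h0 3) 0
  have q0 := congrFun (congrFun h1 0) 0
  have q1 := congrFun (congrFun h1 0) 1
  have q2 := congrFun (congrFun h1 1) 0
  have q3 := congrFun (congrFun h1 1) 1
  simp [CharTwo.add_self_eq_zero] at p0 p1 p2 p3 q0 q1 q2 q3
  rintro ⟨i, j⟩
  fin_cases i <;> fin_cases j <;> simp_all

noncomputable abbrev AA : Subalgebra k (E k) := Algebra.adjoin k {e k}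
noncomputable abbrev HH (b : k) : Subalgebra k (E k) := Algebra.adjoin k {h k, Y b}

omit [CharP k 2] in
lemma eA : e k ∈ AA (k := k) := Algebra.subset_adjoin rfl
omit [CharP k 2] in
lemma hH (b : k) : h k ∈ HH b := Algebra.subset_adjoin (by simp)
omit [CharP k 2] in
lemma XH (b : k) : Y b ∈ HH b := Algebra.subset_adjoin (by simp)

noncomputable def wA : Fin 2 → AA (k := k) := ![1, ⟨e k, eA⟩]
noncomputable def wH (b : k) : Fin 4 → HH b := ![1, ⟨h k, hH b⟩, ⟨Y b, XH b⟩, ⟨h k, hH b⟩ * ⟨Y b, XH b⟩]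

omit [CharP k 2] in
lemma wA_val (i : Fin 2) : ((wA i : AA (k := k)) : E k) = vA i := by fin_cases i <;> rfl
omit [CharP k 2] in
lemma wH_val (b : k) (i : Fin 4) : (wH b i : E k) = vH b i := by fin_cases i <;> rfl

omit [CharP k 2] in
lemma repA (a : AA (k := k)) : ∃ c : Fin 2 → k, a = ∑ i, c i • wA i := by
  obtain ⟨c, hc⟩ := (Submodule.mem_span_range_iff_exists_fun k).1 (memA a.2)
  exact ⟨c, Subtype.ext (by simp [wA_val, ← hc])⟩
omit [CharP k 2] in
lemma repH (b : k) (a : HH b) : ∃ c : Fin 4 → k, a = ∑ i, c i • wH b i := by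
  obtain ⟨c, hc⟩ := (Submodule.mem_span_range_iff_exists_fun k).1 (memH b a.2)
  exact ⟨c, Subtype.ext (by simp [wH_val, hc])⟩

noncomputable abbrev mu (b : k) : AA (k := k) ⊗[k] HH b →ₗ[k] E k :=
  LinearMap.mul' k (E k) ∘ₗ TensorProduct.map AA.val.toLinearMap (HH b).val.toLinearMap

omit [CharP k 2] in
lemma repT (b : k) (z : AA (k := k) ⊗[k] HH b) :
    ∃ c : Fin 2 × Fin 4 → k, z = ∑ p, c p • (wA p.1 ⊗ₜ[k] wH b p.2) := by
  induction z with
  | zero => exact ⟨0, by simp⟩
  | add x y hx hy =>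
    obtain ⟨c, rfl⟩ := hx
    obtain ⟨d, rfl⟩ := hy
    exact ⟨c + d, by simp [add_smul, Finset.sum_add_distrib]⟩
  | tmul x y =>
    obtain ⟨c, rfl⟩ := repA x
    obtain ⟨d, rfl⟩ := repH b y
    refine ⟨fun p => c p.1 * d p.2, ?_⟩
    simp only [Fintype.sum_prod_type, sum_tmul, tmul_sum, smul_tmul_smul]
    exact Finset.sum_comm

lemma mu_inj (b : k) : Function.Injective (mu b) := by
  rw [injective_iff_map_eq_zero]
  intro z hz
  obtain ⟨c, rfl⟩ := repT b z
  have := Fintype.linearIndependent_iff.1 (indep b) c (by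
    simpa [mu, map_sum, wA_val, wH_val] using hz)
  simp [this]

lemma mu_surj (b : k) : Function.Surjective (mu b) := by
  have hm : ∀ (a : AA (k := k)) (y : HH b), (a : E k) * y ∈ LinearMap.range (mu b) :=
    fun a y => ⟨a ⊗ₜ y, by simp [mu]⟩
  have he : ∀ w ∈ LinearMap.range (mu b), e k * w ∈ LinearMap.range (mu b) := by
    rintro _ ⟨z, rfl⟩
    induction z with
    | zero => simp
    | add x y hx hy => rw [map_add, mul_add]; exact add_mem hx hy
    | tmul a y => simpa [mu, mul_assoc] using hm (⟨e k, eA⟩ * a) y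
  have hX : ∀ w ∈ LinearMap.range (mu b), Y b * w ∈ LinearMap.range (mu b) := by
    rintro _ ⟨z, rfl⟩
    induction z with
    | zero => simp
    | add x y hx hy => rw [map_add, mul_add]; exact add_mem hx hy
    | tmul a y =>
      obtain ⟨c, rfl⟩ := repA a
      have h1 := hm 1 (⟨Y b, XH b⟩ * y)
      have h2 := hm 1 (⟨h k, hH b⟩ * y)
      have h3 := hm ⟨e k, eA⟩ (⟨Y b, XH b⟩ * y)
      have : Y b * mu b ((∑ i, c i • wA i) ⊗ₜ y) =
          c 0 • (Y b * y) + c 1 • (h k * y + e k * (Y b * y)) := by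
        simp [mu, wA, add_mul, mul_add, ← mul_assoc, Xe]
      rw [this]
      exact add_mem (Submodule.smul_mem _ _ (by simpa using h1))
        (Submodule.smul_mem _ _ (add_mem (by simpa using h2) (by simpa using h3)))
  have key : ∀ x ∈ Algebra.adjoin k {e k, f k}, ∀ w ∈ LinearMap.range (mu b),
      x * w ∈ LinearMap.range (mu b) := by
    intro x hx
    induction hx using Algebra.adjoin_induction with
    | mem x hx =>
      rcases hx with rfl | rfl
      · exact he
      · intro w hw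
        have : f k * w = Y b * w - b • (e k * w) := by simp [Y, add_mul]
        rw [this]
        exact sub_mem (hX w hw) (Submodule.smul_mem _ _ (he w hw))
    | algebraMap r => intro w hw; rw [← Algebra.smul_def]; exact Submodule.smul_mem _ _ hw
    | add x y _ _ h1 h2 => intro w hw; rw [add_mul]; exact add_mem (h1 w hw) (h2 w hw)
    | mul x y _ _ h1 h2 => intro w hw; rw [mul_assoc]; exact h1 _ (h2 w hw)
  intro x
  simpa using key x (adjE (k := k) ▸ trivial) 1 (by simpa using hm 1 1)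

lemma finE : FiniteDimensional k (E k) := by
  have : Module.Finite k (AA (k := k) ⊗[k] HH (0 : k)) := by
    refine ⟨Submodule.fg_def.2 ⟨Set.range fun p : Fin 2 × Fin 4 => wA p.1 ⊗ₜ[k] wH 0 p.2,
      Set.finite_range _, eq_top_iff.2 fun z _ => ?_⟩⟩
    obtain ⟨c, rfl⟩ := repT 0 z
    exact (Submodule.mem_span_range_iff_exists_fun k).2 ⟨c, rfl⟩
  exact Module.Finite.of_surjective _ (mu_surj 0)

lemma primH (b : k) : ∀ x ∈ ({h k, Y b} : Set (E k)), comul (R := k) x = pr x ∧ (Sop x).unop = x := by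
  rintro _ (rfl | rfl)
  · refine ⟨?_, by simp [h, Sop, add_comm]⟩
    rw [h, map_add, Bialgebra.comul_mul, Bialgebra.comul_mul, comul_e, comul_f, pr_br]
  · refine ⟨?_, by simp [Y, Sop]⟩
    rw [Y, map_add, map_smul, comul_e, comul_f]
    simp only [pr, add_tmul, tmul_add, smul_add, smul_tmul', tmul_smul]
    abel

lemma indepH (b : k) (c : Fin 4 → k) (hc : ∑ i, c i • wH b i = 0) (i : Fin 4) : c i = 0 := by
  have h1 : ∑ i, c i • vH b i = 0 := by simpa [wH_val] using congrArg Subtype.val hc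
  have := Fintype.linearIndependent_iff.1 (indep b) (fun p => if p.1 = 0 then c p.2 else 0) (by
    simpa [Fintype.sum_prod_type, vA] using h1) (0, i)
  simpa using this

lemma sqH (b : k) (c : Fin 4 → k) : (∑ i, c i • wH b i) * (∑ i, c i • wH b i) =
    ∑ i, (![c 0 ^ 2, c 1 ^ 2 + (c 2 + c 3) ^ 2 * b, 0, 0] : Fin 4 → k) i • wH b i := by
  have a1 : h k * (h k * Y b) = h k * Y b := by rw [← mul_assoc, hh]
  have a2 : Y b * (h k * Y b) = b • h k := by
    rw [← mul_assoc, Xh, mul_assoc, XX, mul_smul_comm, hh]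
  have a3 : h k * Y b * h k = h k * Y b := by rw [mul_assoc, Xh, a1]
  have a4 : h k * Y b * Y b = b • h k := by rw [mul_assoc, XX, mul_smul_comm, hh]
  have a5 : h k * Y b * (h k * Y b) = b • h k := by rw [mul_assoc, a2, mul_smul_comm, hh]
  have t2 : (2 : k) = 0 := CharTwo.two_eq_zero
  apply Subtype.ext
  simp only [Fin.sum_univ_four, Subalgebra.coe_mul, Subalgebra.coe_add, Subalgebra.coe_smul, wH_val,
    vH, Matrix.cons_val_zero, Matrix.cons_val_one, Matrix.cons_val, mul_add, add_mul,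
    smul_mul_assoc, mul_smul_comm, one_mul, mul_one, hh, XX, Xh, a1, a2, a3, a4, a5]
  match_scalars
  · ring
  · linear_combination (c 0 * c 1) * t2
  · linear_combination (c 0 * c 2) * t2
  · linear_combination (c 0 * c 3 + c 1 * c 2 + c 1 * c 3) * t2

lemma iso (b b' : k) (φ : HH b' ≃ₐ[k] HH b) : ∃ u v : k, b' = u ^ 2 + v ^ 2 * b := by
  obtain ⟨c, hc⟩ := repH b (φ ⟨h k, hH b'⟩)
  obtain ⟨d, hd⟩ := repH b (φ ⟨Y b', XH b'⟩)
  have e1 : φ ⟨h k, hH b'⟩ * φ ⟨h k, hH b'⟩ = φ ⟨h k, hH b'⟩ := by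
    rw [← map_mul]; congr 1; exact Subtype.ext hh
  have e2 : φ ⟨Y b', XH b'⟩ * φ ⟨Y b', XH b'⟩ = b' • φ ⟨h k, hH b'⟩ := by
    rw [← map_mul, ← map_smul]; congr 1; exact Subtype.ext (XX b')
  have e3 : φ ⟨h k, hH b'⟩ ≠ 0 := by
    rw [Ne, map_eq_zero_iff _ φ.injective]
    intro h0
    have := indepH b' ![0, 1, 0, 0] (by simpa [Fin.sum_univ_four, wH] using h0) 1
    simp at this
  rw [hc] at e1 e3
  rw [hc, hd] at e2
  rw [sqH, ← sub_eq_zero, ← Finset.sum_sub_distrib] at e1
  rw [sqH, ← sub_eq_zero, Finset.smul_sum, ← Finset.sum_sub_distrib] at e2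
  simp only [smul_smul, ← sub_smul] at e1 e2
  have f0 := indepH b _ e1 0
  have f1 := indepH b _ e1 1
  have f2 := indepH b _ e1 2
  have f3 := indepH b _ e1 3
  have g0 := indepH b _ e2 0
  have g1 := indepH b _ e2 1
  simp at f0 f1 f2 f3 g0 g1
  by_cases c0 : c 0 = 0
  · have c1 : c 1 ≠ 0 := fun c1 => e3 (by simp [Fin.sum_univ_four, c0, c1, f2, f3])
    have : c 1 = 1 := mul_left_cancel₀ c1 (by rw [f2, f3] at f1; linear_combination f1)
    exact ⟨d 1, d 2 + d 3, by rw [this] at g1; linear_combination -g1⟩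
  · have : c 0 = 1 := mul_left_cancel₀ c0 (by linear_combination f0)
    exact ⟨d 0, 0, by rw [this] at g0; linear_combination -g0⟩

end

open MvPolynomial in
lemma field_fact (n m : ℕ) (u v : FractionRing (MvPolynomial (Fin 2) (ZMod 2)))
    (H : algebraMap (MvPolynomial (Fin 2) (ZMod 2)) _ (X 0 + X 1 ^ (2 * n + 1)) =
      u ^ 2 + v ^ 2 * algebraMap (MvPolynomial (Fin 2) (ZMod 2)) _ (X 0 + X 1 ^ (2 * m + 1))) :
    n = m := by
  obtain ⟨p, q, hq, rfl⟩ := IsFractionRing.div_surjective (A := MvPolynomial (Fin 2) (ZMod 2)) u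
  obtain ⟨p', q', hq', rfl⟩ := IsFractionRing.div_surjective (A := MvPolynomial (Fin 2) (ZMod 2)) v
  have h1 := IsFractionRing.to_map_ne_zero_of_mem_nonZeroDivisors
    (K := FractionRing (MvPolynomial (Fin 2) (ZMod 2))) hq
  have h2 := IsFractionRing.to_map_ne_zero_of_mem_nonZeroDivisors
    (K := FractionRing (MvPolynomial (Fin 2) (ZMod 2))) hq'
  have H2 : (q * q') ^ 2 * (X 0 + X 1 ^ (2 * n + 1)) =
      (p * q') ^ 2 + (p' * q) ^ 2 * (X 0 + X 1 ^ (2 * m + 1) : MvPolynomial (Fin 2) (ZMod 2)) := by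
    apply IsFractionRing.injective _ (FractionRing (MvPolynomial (Fin 2) (ZMod 2)))
    rw [map_mul, H, map_add _ (_ ^ 2), map_mul]
    simp only [map_mul, map_pow _ (_ * _)]
    field_simp
  have t2 : (2 : MvPolynomial (Fin 2) (ZMod 2)) = 0 := CharTwo.two_eq_zero
  have hs : ∀ (i : Fin 2) (a : MvPolynomial (Fin 2) (ZMod 2)), pderiv i (a ^ 2) = 0 := fun i a => by
    rw [Derivation.leibniz_pow]; simp [two_smul, CharTwo.add_self_eq_zero]
  have hp : ∀ j : ℕ, pderiv (1 : Fin 2) (X 1 ^ (2 * j + 1) : MvPolynomial (Fin 2) (ZMod 2)) =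
      X 1 ^ (2 * j) := fun j => by
    rw [pow_succ, mul_comm 2 j, pow_mul, Derivation.leibniz, hs]; simp
  have hp0 : ∀ j : ℕ, pderiv (0 : Fin 2) (X 1 ^ (2 * j + 1) : MvPolynomial (Fin 2) (ZMod 2)) =
      0 := fun j => by
    rw [Derivation.leibniz_pow]; simp
  have d0 := congrArg (pderiv 0) H2
  have d1 := congrArg (pderiv 1) H2
  simp only [map_add, Derivation.leibniz, hs, hp, hp0, smul_eq_mul, mul_zero, add_zero, zero_add,
    pderiv_X_self, mul_one] at d0 d1
  rw [pderiv_X_of_ne (by decide), zero_add, zero_add, ← d0] at d1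
  have hne : (q * q') ^ 2 ≠ 0 :=
    pow_ne_zero _ (mul_ne_zero (nonZeroDivisors.ne_zero hq) (nonZeroDivisors.ne_zero hq'))
  have := congrArg totalDegree (mul_left_cancel₀ hne d1)
  simp only [totalDegree_X_pow] at this
  omega

theorem result : ∃ (k : Type) (_ : Field k) (E : Type) (_ : Ring E) (_ : HopfAlgebra k E),
    FiniteDimensional k E ∧ ∃ A : Subalgebra k E, IsHopfSub A ∧ ∃ H : ℕ → Subalgebra k E,
      (∀ n, IsComplement A (H n)) ∧ ∀ n m, n ≠ m → IsEmpty (H n ≃ₐ[k] H m) := by
  let k := FractionRing (MvPolynomial (Fin 2) (ZMod 2))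
  have : CharP k 2 := charP_of_injective_algebraMap
    (IsFractionRing.injective (MvPolynomial (Fin 2) (ZMod 2)) k) 2
  refine ⟨k, inferInstance, E k, inferInstance, inferInstance, finE, AA, hopfSub _ ?_,
    fun n => HH (algebraMap (MvPolynomial (Fin 2) (ZMod 2)) k
      (MvPolynomial.X 0 + MvPolynomial.X 1 ^ (2 * n + 1))),
    fun n => ⟨hopfSub _ (primH _), mu_inj _, mu_surj _⟩, fun n m hnm => ⟨fun φ => ?_⟩⟩
  · rintro _ rfl
    exact ⟨comul_e, by simp [Sop]⟩
  · obtain ⟨u, v, h⟩ := iso _ _ φ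
    exact hnm (field_fact n m u v h)

end Pool.Agent.Results.MP_d8e1db_al.Infinite
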